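import Pool.Agent.FS.LineTil.Step

namespace Pool.Agent.Results.MP_f7d7fe_co.EveryDimension

/-- A lattice translate in `ℤ^d`: a coset `v + L` of a subgroup `L` of finite index. -/
def IsTranslate {d : ℕ} (S : Set (Fin d → ℤ)) : Prop :=
  ∃ (L : AddSubgroup (Fin d → ℤ)) (v : Fin d → ℤ), L.FiniteIndex ∧ S = {x | x - v ∈ L}

/-- A lattice tiling of `ℤ^d` with `n` lattice translates: they are pairwise disjoint and their
union is `ℤ^d`. -/
def IsTiling {d n : ℕ} (T : Fin n → Set (Fin d → ℤ)) : Prop :=
  (∀ i, IsTranslate (T i)) ∧ (∀ i j, i ≠ j → Disjoint (T i) (T j)) ∧ ⋃ i, T i = Set.univ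

/-- The tiling splits: the index set has a partition into at least two (nonempty) blocks, one of
them with at least two elements, such that the union of the tiles of each block is a lattice
translate. -/
def Splits {d n : ℕ} (T : Fin n → Set (Fin d → ℤ)) : Prop :=
  ∃ P : Finpartition (Finset.univ : Finset (Fin n)),
    2 ≤ P.parts.card ∧ (∃ B ∈ P.parts, 2 ≤ B.card) ∧ ∀ B ∈ P.parts, IsTranslate (⋃ i ∈ B, T i)

/-- In every dimension `d ≥ 1`, already on the line, there are primitive lattice tilings with
exactly `n` translates for every `n ≥ 48`. -/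
theorem result (d : ℕ) (hd : 1 ≤ d) (n : ℕ) (hn : 48 ≤ n) :
    ∃ T : Fin n → Set (Fin d → ℤ), IsTiling T ∧ ¬ Splits T := by
  classical
  obtain ⟨c, K, hK, ⟨hsurj, haff, hirr⟩, hinv⟩ := Pool.Agent.FS.LineTil.exists_line d hd n hn
  refine ⟨fun i => {x | c x = i}, ⟨?_, ?_, ?_⟩, ?_⟩
  · intro i
    obtain ⟨v, rfl⟩ := hsurj i
    let L : AddSubgroup (Fin d → ℤ) :=
      { carrier := {w | c (v + w) = c v}
        zero_mem' := by simp
        add_mem' := by
          intro a b ha hb
          simp only [Set.mem_setOf_eq] at ha hb ⊢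
          have := haff (v + a) v (v + b) ha hb.symm
          rw [show v + a - v + (v + b) = v + (a + b) by abel] at this
          exact this.trans ha
        neg_mem' := by
          intro a ha
          simp only [Set.mem_setOf_eq] at ha ⊢
          have := haff v (v + a) v ha.symm ha
          rwa [show v - (v + a) + v = v + -a by abel] at this }
    have hKL : K ≤ L := fun k hk => hinv v k hk
    refine ⟨L, v, AddSubgroup.finiteIndex_of_le hKL, ?_⟩
    ext x
    change c x = c v ↔ c (v + (x - v)) = c v
    rw [add_sub_cancel]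
  · intro i j hij
    rw [Set.disjoint_left]
    intro x hx hy
    exact hij (hx.symm.trans hy)
  · ext x
    simp
  · rintro ⟨P, h2, ⟨B, hB, hB2⟩, hall⟩
    obtain ⟨L, v, -, hL⟩ := hall B hB
    have mem : ∀ x, c x ∈ B ↔ x - v ∈ L := by
      intro x
      have : x ∈ (⋃ i ∈ B, {x | c x = i}) ↔ x ∈ {x | x - v ∈ L} := by rw [hL]
      simpa using this
    rcases hirr (fun i => i ∈ B) (by
      intro x y z hx hy hz
      rw [mem] at hx hy hz ⊢
      have := L.add_mem (L.sub_mem hx hy) hz
      rwa [show x - v - (y - v) + (z - v) = x - y + z - v by abel] at this) with h | h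
    · obtain ⟨i, hi, j, hj, hij⟩ := Finset.one_lt_card.1 hB2
      exact hij (h i j hi hj)
    · obtain ⟨B1, hB1, B2, hB2', h12⟩ := Finset.one_lt_card.1 h2
      have key : ∀ C ∈ P.parts, C = B := by
        intro C hC
        obtain ⟨i, hi⟩ := P.nonempty_of_mem_parts hC
        exact P.eq_of_mem_parts hC hB hi (h i)
      exact h12 ((key _ hB1).trans (key _ hB2').symm)

end Pool.Agent.Results.MP_f7d7fe_co.EveryDimension
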