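import Pool.Agent.Lib.MP_f7d7fe_co.Three
import Pool.Agent.Lib.MP_f7d7fe_co.Two

namespace Pool.Agent.Results.MP_f7d7fe_co.SharpDimension

/-- A lattice translate in `ℤ^d`: a coset `v + L` of a subgroup `L` of finite index. -/
def IsTranslate {d : ℕ} (S : Set (Fin d → ℤ)) : Prop :=
  ∃ (L : AddSubgroup (Fin d → ℤ)) (v : Fin d → ℤ), L.FiniteIndex ∧ S = {x | x - v ∈ L}

/-- A lattice tiling of `ℤ^d` with `n` lattice translates: they are pairwise disjoint and their
union is `ℤ^d`. -/
def IsTiling {d n : ℕ} (T : Fin n → Set (Fin d → ℤ)) : Prop :=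
  (∀ i, IsTranslate (T i)) ∧ (∀ i j, i ≠ j → Disjoint (T i) (T j)) ∧ ⋃ i, T i = Set.univ

/-- The tiling splits: the index set has a partition into at least two (nonempty) blocks, one of
them with at least two elements, such that the union of the tiles of each block is a lattice
translate. -/
def Splits {d n : ℕ} (T : Fin n → Set (Fin d → ℤ)) : Prop :=
  ∃ P : Finpartition (Finset.univ : Finset (Fin n)),
    2 ≤ P.parts.card ∧ (∃ B ∈ P.parts, 2 ≤ B.card) ∧ ∀ B ∈ P.parts, IsTranslate (⋃ i ∈ B, T i)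

open Pool.Agent.Lib.MP_f7d7fe_co

theorem four_splits {d : ℕ} (hd : d ≤ 2) (T : Fin 4 → Set (Fin d → ℤ)) (hT : IsTiling T) :
    Splits T := by
  classical
  obtain ⟨h1, h2, h3⟩ := hT
  choose L v hfin hL using h1
  have mem : ∀ i x, x ∈ T i ↔ x - v i ∈ L i := fun i x => by rw [hL i]; rfl
  have hcov : ∀ x, ∃ i, x - v i ∈ L i := fun x => by
    obtain ⟨i, hi⟩ := Set.mem_iUnion.1 (h3 ▸ Set.mem_univ x)
    exact ⟨i, (mem i x).1 hi⟩
  obtain ⟨Q, _, _, f, hQ, ⟨w, hw⟩, hf⟩ := four_coarse hd L v hfin (fun i j hij x hi hj =>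
    Set.disjoint_left.1 (h2 i j hij) ((mem i x).2 hi) ((mem j x).2 hj)) hcov
  have val : ∀ i x, x - v i ∈ L i → f x = f (v i) := fun i x h =>
    sub_eq_zero.1 ((map_sub f _ _).symm.trans (hf i _ h))
  let P := Finpartition.ofSetoid (Setoid.ker fun i => f (v i))
  have hP : ∀ a b, b ∈ P.part a ↔ f (v a) = f (v b) := fun a b =>
    Finpartition.mem_part_ofSetoid_iff_rel
  have pm : ∀ a, P.part a ∈ P.parts := fun a => P.part_mem.2 (Finset.mem_univ a)
  refine ⟨P, ?_, ?_, fun B hB => ?_⟩
  · obtain ⟨i, hi⟩ := hcov (v 0 + w)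
    refine Finset.one_lt_card.2 ⟨_, pm 0, _, pm i, fun h => hw ?_⟩
    have h4 := (hP 0 i).1 (h ▸ (hP i i).2 rfl)
    have h5 := val i _ hi
    rwa [map_add, ← h4, add_eq_left] at h5
  · by_contra hh
    push Not at hh
    have : Function.Injective fun i => f (v i) := fun i j h =>
      Finset.card_le_one.1 (Nat.lt_succ_iff.1 (hh _ (pm i))) i ((hP i i).2 rfl) j ((hP i j).2 h)
    have := Nat.card_le_card_of_injective _ this
    simp only [Nat.card_eq_fintype_card, Fintype.card_fin] at this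
    omega
  · obtain ⟨a, ha⟩ := P.nonempty_of_mem_parts hB
    obtain rfl := P.part_eq_of_mem hB ha
    refine ⟨f.ker, v a, inferInstance, Set.ext fun x => ?_⟩
    simp only [Set.mem_iUnion, Set.mem_setOf_eq, AddMonoidHom.mem_ker, map_sub, sub_eq_zero, hP,
      mem]
    refine ⟨fun ⟨i, h4, h5⟩ => (val i x h5).trans h4.symm, fun h => ?_⟩
    obtain ⟨i, hi⟩ := hcov x
    exact ⟨i, h.symm.trans (val i x hi), hi⟩

/-- The lattice `ℤ^d` has primitive lattice tilings with exactly `n` translates for every positive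
`n` if and only if `d ≥ 3`. -/
theorem result (d : ℕ) :
    (∀ n : ℕ, 1 ≤ n → ∃ T : Fin n → Set (Fin d → ℤ), IsTiling T ∧ ¬ Splits T) ↔ 3 ≤ d := by
  classical
  refine ⟨fun h => not_lt.1 fun hd => ?_, fun hd n hn => ?_⟩
  · obtain ⟨T, h1, h2⟩ := h 4 (by norm_num)
    exact h2 (four_splits (by omega) T h1)
  obtain ⟨c, K, hK, ⟨hsurj, haff, hirr⟩, hinv⟩ := exists_three d hd n hn
  refine ⟨fun i => {x | c x = i}, ⟨?_, ?_, ?_⟩, ?_⟩
  · intro i
    obtain ⟨v, rfl⟩ := hsurj i
    let L : AddSubgroup (Fin d → ℤ) :=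
      { carrier := {w | c (v + w) = c v}
        zero_mem' := by simp
        add_mem' := by
          intro a b ha hb
          simp only [Set.mem_setOf_eq] at ha hb ⊢
          have := haff (v + a) v (v + b) ha hb.symm
          rw [show v + a - v + (v + b) = v + (a + b) by abel] at this
          exact this.trans ha
        neg_mem' := by
          intro a ha
          simp only [Set.mem_setOf_eq] at ha ⊢
          have := haff v (v + a) v ha.symm ha
          rwa [show v - (v + a) + v = v + -a by abel] at this }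
    have hKL : K ≤ L := fun k hk => hinv v k hk
    refine ⟨L, v, AddSubgroup.finiteIndex_of_le hKL, ?_⟩
    ext x
    change c x = c v ↔ c (v + (x - v)) = c v
    rw [add_sub_cancel]
  · intro i j hij
    rw [Set.disjoint_left]
    intro x hx hy
    exact hij (hx.symm.trans hy)
  · ext x
    simp
  · rintro ⟨P, h2, ⟨B, hB, hB2⟩, hall⟩
    obtain ⟨L, v, -, hL⟩ := hall B hB
    have mem : ∀ x, c x ∈ B ↔ x - v ∈ L := by
      intro x
      have : x ∈ (⋃ i ∈ B, {x | c x = i}) ↔ x ∈ {x | x - v ∈ L} := by rw [hL]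
      simpa using this
    rcases hirr (fun i => i ∈ B) (by
      intro x y z hx hy hz
      rw [mem] at hx hy hz ⊢
      have := L.add_mem (L.sub_mem hx hy) hz
      rwa [show x - v - (y - v) + (z - v) = x - y + z - v by abel] at this) with h | h
    · obtain ⟨i, hi, j, hj, hij⟩ := Finset.one_lt_card.1 hB2
      exact hij (h i j hi hj)
    · obtain ⟨B1, hB1, B2, hB2', h12⟩ := Finset.one_lt_card.1 h2
      have key : ∀ C ∈ P.parts, C = B := by
        intro C hC
        obtain ⟨i, hi⟩ := P.nonempty_of_mem_parts hC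
        exact P.eq_of_mem_parts hC hB hi (h i)
      exact h12 ((key _ hB1).trans (key _ hB2').symm)

end Pool.Agent.Results.MP_f7d7fe_co.SharpDimension
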